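import Mathlib
import Pool.Agent.H36.EK.AX

/-!
# SurB : every element of a piece of the surface is uniquely `∑ z_e t^e`, `e < q`

`mu : R ⊗ R → K`. For every `c` in `R ⊗ R` the map `(z_e) ↦ ∑ mu z_e * (t + mu c)^e` is bijective from `(R ⊗ R)^q` to `K`.
`T2 U V ≤ R ⊗ R` is the image of `U ⊗ V`. The piece `W.pc s s' m n` corresponds to the families with all `z_e` in
`T2 (C.pc s m) (C.pc s' n)`, for `t = W.tt r r'` on any larger open set.
-/

set_option autoImplicit false

open NC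
open scoped TensorProduct

noncomputable section

namespace EK

open H36.NX

variable {q : ℕ} {k : Type} [Field k] {R : Type} [CommRing R] [Algebra k R]
  {K : Type} [CommRing K] [Algebra k K]

/-- the image of `U ⊗ V` in `R ⊗ R` -/
def T2 (U V : Submodule k R) : Submodule k (R ⊗[k] R) :=
  LinearMap.range (TensorProduct.map U.subtype V.subtype)

theorem T2_tmul {U V : Submodule k R} {x y : R} (hx : x ∈ U) (hy : y ∈ V) :
    x ⊗ₜ[k] y ∈ T2 U V :=
  ⟨(⟨x, hx⟩ : U) ⊗ₜ (⟨y, hy⟩ : V), rfl⟩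

theorem T2_le {U V : Submodule k R} {T : Submodule k (R ⊗[k] R)}
    (h : ∀ x ∈ U, ∀ y ∈ V, x ⊗ₜ[k] y ∈ T) : T2 U V ≤ T := by
  rintro _ ⟨z, rfl⟩
  induction z using TensorProduct.induction_on with
  | zero => rw [map_zero]; exact T.zero_mem
  | tmul x y => exact h x x.2 y y.2
  | add x y hx hy => rw [map_add]; exact T.add_mem hx hy

theorem T2_mul {U V U' V' U'' V'' : Submodule k R} (hU : ∀ x ∈ U, ∀ y ∈ U', x * y ∈ U'')
    (hV : ∀ x ∈ V, ∀ y ∈ V', x * y ∈ V'') {z w : R ⊗[k] R} (hz : z ∈ T2 U V) (hw : w ∈ T2 U' V') :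
    z * w ∈ T2 U'' V'' := by
  have h1 : ∀ x ∈ U, ∀ y ∈ V, (x ⊗ₜ[k] y) * w ∈ T2 U'' V'' := by
    intro x hx y hy
    have : T2 U' V' ≤ (T2 U'' V'').comap (LinearMap.mulLeft k (x ⊗ₜ[k] y)) := by
      refine T2_le (fun x' hx' y' hy' => ?_)
      change (x ⊗ₜ[k] y) * (x' ⊗ₜ[k] y') ∈ T2 U'' V''
      rw [Algebra.TensorProduct.tmul_mul_tmul]
      exact T2_tmul (hU x hx x' hx') (hV y hy y' hy')
    exact this hw
  have : T2 U V ≤ (T2 U'' V'').comap (LinearMap.mulRight k w) := T2_le (fun x hx y hy => h1 x hx y hy)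
  exact this hz

theorem T2_mono {U V U' V' : Submodule k R} (hU : U ≤ U') (hV : V ≤ V') : T2 U V ≤ T2 U' V' :=
  T2_le (fun _ hx _ hy => T2_tmul (hU hx) (hV hy))

namespace SurR

variable {C : CurR q k R} (W : SurR C K)

/-- `x ⊗ y ↦ l x * r y` -/
def mu : R ⊗[k] R →ₐ[k] K := Algebra.TensorProduct.lift W.l W.r (fun _ _ => Commute.all _ _)

theorem mu_tmul (x y : R) : W.mu (x ⊗ₜ y) = W.l x * W.r y := by
  rw [mu, Algebra.TensorProduct.lift_tmul]

/-- `(z_e) ↦ ∑ mu z_e * τ^e` -/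
def Phi (τ : K) : (Fin q → R ⊗[k] R) →ₗ[k] K where
  toFun z := ∑ e : Fin q, W.mu (z e) * τ ^ (e : ℕ)
  map_add' z w := by
    rw [← Finset.sum_add_distrib]
    exact Finset.sum_congr rfl fun e _ => by rw [Pi.add_apply, map_add, add_mul]
  map_smul' c z := by
    rw [RingHom.id_apply, Finset.smul_sum]
    exact Finset.sum_congr rfl fun e _ => by rw [Pi.smul_apply, map_smul, smul_mul_assoc]

theorem Phi_apply (τ : K) (z : Fin q → R ⊗[k] R) :
    W.Phi τ z = ∑ e : Fin q, W.mu (z e) * τ ^ (e : ℕ) := rfl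

theorem Phi_mul (τ : K) (c : R ⊗[k] R) (z : Fin q → R ⊗[k] R) :
    W.Phi τ (fun e => c * z e) = W.mu c * W.Phi τ z := by
  rw [Phi_apply, Phi_apply, Finset.mul_sum]
  exact Finset.sum_congr rfl fun e _ => by rw [map_mul, mul_assoc]

theorem Phi_single (τ : K) (c : R ⊗[k] R) (e : Fin q) :
    W.Phi τ (Pi.single e c) = W.mu c * τ ^ (e : ℕ) := by
  rw [Phi_apply, Finset.sum_eq_single e]
  · rw [Pi.single_eq_same]
  · intro j _ hj
    rw [Pi.single_eq_of_ne hj, map_zero, zero_mul]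
  · intro h
    exact absurd (Finset.mem_univ e) h

/-- the basis of `(R ⊗ R)^q` -/
def basP (C : CurR q k R) : Module.Basis (Σ _ : Fin q, (ℤ × Fin 2) × (ℤ × Fin 2)) k
    (Fin q → R ⊗[k] R) := Pi.basis (fun _ : Fin q => C.bas.tensorProduct C.bas)

theorem basP_apply (e : Fin q) (i j : ℤ × Fin 2) :
    basP C ⟨e, (i, j)⟩ = Pi.single e (C.bas i ⊗ₜ[k] C.bas j) := by
  rw [basP, Pi.basis_apply]
  change (Pi.single e (C.bas.tensorProduct C.bas (i, j)) : Fin q → R ⊗[k] R) = _
  rw [Module.Basis.tensorProduct_apply]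

/-- the bijection of the index sets -/
def eqI (q : ℕ) : (Σ _ : Fin q, (ℤ × Fin 2) × (ℤ × Fin 2)) ≃ (ℤ × Fin 2) × (ℤ × Fin 2) × Fin q where
  toFun x := (x.2.1, x.2.2, x.1)
  invFun x := ⟨x.2.2, (x.1, x.2.1)⟩
  left_inv _ := rfl
  right_inv _ := rfl

theorem Phi_t_bij : Function.Bijective (W.Phi W.t) := by
  have h : W.Phi W.t = ((basP C).equiv W.bas (eqI q)).toLinearMap := by
    refine (basP C).ext (fun x => ?_)
    obtain ⟨e, i, j⟩ := x
    rw [LinearEquiv.coe_coe, Module.Basis.equiv_apply, basP_apply, Phi_single, mu_tmul]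
    exact (W.bas_eq i j e).symm
  rw [h]
  exact ((basP C).equiv W.bas (eqI q)).bijective

theorem Phi_bij (c : R ⊗[k] R) : Function.Bijective (W.Phi (W.t + W.mu c)) := by
  let _ : Algebra (R ⊗[k] R) K := W.mu.toRingHom.toAlgebra
  have hsm : ∀ (c : R ⊗[k] R) (x : K), c • x = W.mu c * x := fun _ _ => rfl
  let L : K → (Fin q → R ⊗[k] R) →ₗ[R ⊗[k] R] K := fun τ =>
    { toFun := fun z => W.Phi τ z
      map_add' := fun z w => map_add _ _ _
      map_smul' := fun c z => W.Phi_mul τ c z }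
  have hL : ∀ τ z, L τ z = W.Phi τ z := fun _ _ => rfl
  set τ := W.t + W.mu c with hτ
  have hr : ∀ n, n < q → ∀ d : K, d ∈ LinearMap.range W.mu.toLinearMap → d * τ ^ n ∈ LinearMap.range (L τ) := by
    rintro n hn _ ⟨d, rfl⟩
    exact ⟨Pi.single ⟨n, hn⟩ d, W.Phi_single τ d ⟨n, hn⟩⟩
  have ht : ∀ n, n < q → W.t ^ n ∈ LinearMap.range (L τ) := by
    intro n hn
    have e : W.t = τ + (- W.mu c) := by rw [hτ]; ring
    rw [e, add_pow]
    refine Submodule.sum_mem _ fun m hm => ?_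
    have hm' : m < q := by have := Finset.mem_range.1 hm; omega
    have := hr m hm' ((- W.mu c) ^ (n - m) * (n.choose m : K))
      ⟨(-c) ^ (n - m) * (n.choose m : R ⊗[k] R), by
        change W.mu _ = _
        rw [map_mul, map_pow, map_neg, map_natCast]⟩
    rw [mul_comm, ← mul_assoc] at this
    rwa [mul_assoc, mul_comm _ (n.choose m : K), ← mul_assoc, mul_assoc, mul_comm (n.choose m : K),
      ← mul_assoc] at this
  have hs : Function.Surjective (L τ) := by
    intro x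
    obtain ⟨z, rfl⟩ := W.Phi_t_bij.2 x
    have : W.Phi W.t z ∈ LinearMap.range (L τ) := by
      rw [Phi_apply]
      exact Submodule.sum_mem _ fun e _ => Submodule.smul_mem _ (z e) (ht e e.2)
    exact this
  let E := LinearEquiv.ofBijective (L W.t) W.Phi_t_bij
  have hs2 : Function.Surjective (E.symm.toLinearMap ∘ₗ L τ) := by
    rw [LinearMap.coe_comp]
    exact E.symm.surjective.comp hs
  have hi2 : Function.Injective (E.symm.toLinearMap ∘ₗ L τ) :=
    OrzechProperty.injective_of_surjective_endomorphism _ hs2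
  refine ⟨fun z w h => hi2 ?_, hs⟩
  rw [LinearMap.comp_apply, LinearMap.comp_apply]
  exact congrArg _ h

/-- `mu` is injective -/
theorem mu_inj : Function.Injective W.mu := by
  have hq := C.hq
  intro x y h
  have e : (Pi.single (⟨0, by omega⟩ : Fin q) x : Fin q → R ⊗[k] R) = Pi.single ⟨0, by omega⟩ y := by
    refine W.Phi_t_bij.1 ?_
    rw [Phi_single, Phi_single, h]
  have := congrFun e ⟨0, by omega⟩
  rwa [Pi.single_eq_same, Pi.single_eq_same] at this

/-- the correction of `t` on the chart `s × s'` -/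
def tc (C : CurR q k R) (s s' : Pc) : R ⊗[k] R :=
  (match s' with
    | Pc.Y => 1 ⊗ₜ[k] C.h
    | _ => 0) - (match s with
    | Pc.Y => C.h ⊗ₜ[k] 1
    | _ => 0)

theorem tt_eq (s s' : Pc) : W.tt s s' = W.t + W.mu (tc C s s') := by
  cases s <;> cases s' <;> simp [tt, tc, mu_tmul] <;> ring

theorem Phi_tt_bij (s s' : Pc) : Function.Bijective (W.Phi (W.tt s s')) := by
  rw [tt_eq]
  exact W.Phi_bij _

theorem Phi_tt_add_bij (s s' : Pc) (c : R ⊗[k] R) :
    Function.Bijective (W.Phi (W.tt s s' + W.mu c)) := by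
  rw [tt_eq, add_assoc, ← map_add]
  exact W.Phi_bij _

/-- the piece in terms of `Phi` -/
theorem mem_pc_iff_Phi (s s' : Pc) (m n : ℤ) (x : K) : x ∈ W.pc s s' m n ↔
    ∃ z : Fin q → R ⊗[k] R, (∀ e, z e ∈ T2 (C.pc s m) (C.pc s' n)) ∧ x = W.Phi (W.tt s s') z := by
  constructor
  · intro hx
    let U : Submodule k K := (Submodule.pi Set.univ
      (fun _ : Fin q => T2 (C.pc s m) (C.pc s' n))).map (W.Phi (W.tt s s'))
    have h : W.pc s s' m n ≤ U := by
      refine Submodule.span_le.2 ?_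
      rintro _ ⟨x, hx, y, hy, i, hi, rfl⟩
      refine ⟨Pi.single ⟨i, hi⟩ (x ⊗ₜ y), ?_, ?_⟩
      · intro e _
        by_cases he : e = ⟨i, hi⟩
        · subst he
          rw [Pi.single_eq_same]
          exact T2_tmul hx hy
        · rw [Pi.single_eq_of_ne he]
          exact Submodule.zero_mem _
      · rw [Phi_single, mu_tmul]
    obtain ⟨z, hz, e⟩ := h hx
    exact ⟨z, fun i => hz i trivial, e.symm⟩
  · rintro ⟨z, hz, rfl⟩
    rw [Phi_apply]
    refine Submodule.sum_mem _ fun e _ => ?_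
    have h : T2 (C.pc s m) (C.pc s' n) ≤ (W.pc s s' m n).comap
        ((LinearMap.mulRight k (W.tt s s' ^ (e : ℕ))) ∘ₗ W.mu.toLinearMap) := by
      refine T2_le (fun x hx y hy => ?_)
      change W.mu (x ⊗ₜ y) * W.tt s s' ^ (e : ℕ) ∈ W.pc s s' m n
      rw [mu_tmul]
      exact Submodule.subset_span ⟨x, hx, y, hy, e, e.2, rfl⟩
    exact h (hz e)

/-- the piece in terms of the powers of `tt s s' + mu c`, `c` regular on the chart -/
theorem mem_pc_iff_add (s s' : Pc) (m n : ℤ) {c : R ⊗[k] R} (hc : c ∈ T2 (C.pc s 0) (C.pc s' 0))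
    (x : K) : x ∈ W.pc s s' m n ↔ ∃ z : Fin q → R ⊗[k] R, (∀ e, z e ∈ T2 (C.pc s m) (C.pc s' n)) ∧
      x = W.Phi (W.tt s s' + W.mu c) z := by
  have hpow : ∀ {c : R ⊗[k] R}, c ∈ T2 (C.pc s 0) (C.pc s' 0) → ∀ n, c ^ n ∈ T2 (C.pc s 0) (C.pc s' 0) := by
    intro c hc n
    induction n with
    | zero =>
      rw [pow_zero, Algebra.TensorProduct.one_def]
      exact T2_tmul (C.one_mem_pc s le_rfl) (C.one_mem_pc s' le_rfl)
    | succ n ih =>
      rw [pow_succ]
      refine T2_mul (fun x hx y hy => ?_) (fun x hx y hy => ?_) ih hc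
      · have := C.pc_mul_mem s hx hy
        rwa [add_zero] at this
      · have := C.pc_mul_mem s' hx hy
        rwa [add_zero] at this
  have key : ∀ (τ σ : K) (c : R ⊗[k] R), c ∈ T2 (C.pc s 0) (C.pc s' 0) → τ = σ + W.mu c →
      ∀ z : Fin q → R ⊗[k] R, (∀ e, z e ∈ T2 (C.pc s m) (C.pc s' n)) →
        ∃ w : Fin q → R ⊗[k] R, (∀ e, w e ∈ T2 (C.pc s m) (C.pc s' n)) ∧ W.Phi τ z = W.Phi σ w := by
    intro τ σ c hc hτ z hz
    let U : Submodule k K := (Submodule.pi Set.univ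
      (fun _ : Fin q => T2 (C.pc s m) (C.pc s' n))).map (W.Phi σ)
    have h : W.Phi τ z ∈ U := by
      rw [Phi_apply]
      refine Submodule.sum_mem _ fun e _ => ?_
      rw [hτ, add_pow, Finset.mul_sum]
      refine Submodule.sum_mem _ fun i hi => ?_
      have hi' : i < q := by have := Finset.mem_range.1 hi; have := e.2; omega
      refine ⟨Pi.single ⟨i, hi'⟩ (z e * (c ^ ((e : ℕ) - i) * ((e : ℕ).choose i : R ⊗[k] R))), ?_, ?_⟩
      · intro j _
        by_cases he : j = ⟨i, hi'⟩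
        · subst he
          rw [Pi.single_eq_same]
          refine T2_mul (U' := C.pc s 0) (V' := C.pc s' 0) (fun x hx y hy => ?_)
            (fun x hx y hy => ?_) (hz e) ?_
          · have := C.pc_mul_mem s hx hy
            rwa [add_zero] at this
          · have := C.pc_mul_mem s' hx hy
            rwa [add_zero] at this
          · rw [mul_comm, ← nsmul_eq_mul]
            exact Submodule.smul_of_tower_mem _ _ (hpow hc _)
        · rw [Pi.single_eq_of_ne he]
          exact Submodule.zero_mem _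
      · rw [Phi_single, map_mul, map_mul, map_pow, map_natCast]
        ring
    obtain ⟨w, hw, e⟩ := h
    exact ⟨w, fun i => hw i trivial, e.symm⟩
  rw [mem_pc_iff_Phi]
  constructor
  · rintro ⟨z, hz, rfl⟩
    exact key _ _ (-c) (Submodule.neg_mem _ hc) (by rw [map_neg]; ring) z hz
  · rintro ⟨z, hz, rfl⟩
    exact key _ _ c hc rfl z hz

/-- `t` of the smaller chart in terms of `t` of the larger one -/
theorem tt_Le {s s' r r' : Pc} (h : Le s r) (h' : Le s' r') :
    ∃ c ∈ T2 (C.pc r 0) (C.pc r' 0), W.tt s s' = W.tt r r' + W.mu c := by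
  have one_l : (1 : R) ∈ C.pc r 0 := C.one_mem_pc r le_rfl
  have one_r : (1 : R) ∈ C.pc r' 0 := C.one_mem_pc r' le_rfl
  have h1 : ∃ z : R, z ∈ C.pc r 0 ∧ ∀ s' : Pc, W.tt s s' = W.tt r s' + W.mu (z ⊗ₜ 1) := by
    rcases h with rfl | rfl
    · exact ⟨0, Submodule.zero_mem _, fun s' => by
        rw [TensorProduct.zero_tmul, map_zero, add_zero]⟩
    · cases s with
      | X => exact ⟨0, Submodule.zero_mem _, fun s' => by
          rw [TensorProduct.zero_tmul, map_zero, add_zero]; rfl⟩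
      | Y => exact ⟨-C.h, trivial, fun s' => by
          rw [mu_tmul, map_neg, map_one, mul_one]
          unfold tt
          ring⟩
      | R => exact ⟨0, Submodule.zero_mem _, fun s' => by
          rw [TensorProduct.zero_tmul, map_zero, add_zero]⟩
  have h2 : ∃ w : R, w ∈ C.pc r' 0 ∧ W.tt r s' = W.tt r r' + W.mu (1 ⊗ₜ w) := by
    rcases h' with rfl | rfl
    · exact ⟨0, Submodule.zero_mem _, by rw [TensorProduct.tmul_zero, map_zero, add_zero]⟩
    · cases s' with
      | X => exact ⟨0, Submodule.zero_mem _, by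
          rw [TensorProduct.tmul_zero, map_zero, add_zero]; rfl⟩
      | Y => exact ⟨C.h, trivial, by
          rw [mu_tmul, map_one, one_mul]
          unfold tt
          ring⟩
      | R => exact ⟨0, Submodule.zero_mem _, by
          rw [TensorProduct.tmul_zero, map_zero, add_zero]⟩
  obtain ⟨z, hz, e⟩ := h1
  obtain ⟨w, hw, e'⟩ := h2
  refine ⟨z ⊗ₜ 1 + 1 ⊗ₜ w, Submodule.add_mem _ (T2_tmul hz one_r) (T2_tmul one_l hw), ?_⟩
  rw [e s', e', map_add]
  ring

/-- **left basis**: the elements of the piece `r × r'` are the sums `∑ mu z_e * (tt s s')^e`, for every smaller chart -/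
theorem mem_pc_iff_Le {s s' r r' : Pc} (h : Le s r) (h' : Le s' r') (m n : ℤ) (x : K) :
    x ∈ W.pc r r' m n ↔ ∃ z : Fin q → R ⊗[k] R, (∀ e, z e ∈ T2 (C.pc r m) (C.pc r' n)) ∧
      x = W.Phi (W.tt s s') z := by
  obtain ⟨c, hc, e⟩ := W.tt_Le h h'
  rw [e]
  exact W.mem_pc_iff_add r r' m n hc x

end SurR

end EK
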