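import Mathlib
import Pool.Agent.H55.ED.SurB

/-!
# LB : the dg algebra `AX` is free of rank `q` as a left module over `AE ⊗ AE`, with the basis `t^e`
-/

set_option autoImplicit false

open NC
open scoped TensorProduct

noncomputable section

namespace EK

open H36.NX

section

variable {k : Type} [Field k] {K : Type} [CommRing K] [Algebra k K]
  {ι : Type} [Fintype ι] [DecidableEq ι] (d : MatDat k K ι)

/-- the entry `(i, j)` -/
def ent (i j : ι) : (matZ d).V →ₗ[k] K where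
  toFun x := mv d x i j
  map_add' x y := by rw [map_add]; rfl
  map_smul' c x := by rw [map_smul]; rfl

theorem ent_apply (i j : ι) (x : (matZ d).V) : ent d i j x = mv d x i j := rfl

/-- the entry `(i, j)` as an element of `S i j` -/
def evS (i j : ι) : (matZ d).V →ₗ[k] d.S i j where
  toFun x := ⟨mv d x i j, mv_mem d x i j⟩
  map_add' x y := Subtype.ext (by
    change mv d (x + y) i j = mv d x i j + mv d y i j
    rw [map_add]; rfl)
  map_smul' c x := Subtype.ext (by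
    change mv d (c • x) i j = c • mv d x i j
    rw [map_smul]; rfl)

/-- the matrix with one entry -/
def oneM (i j : ι) (x : K) : Matrix ι ι K := fun a b => if a = i ∧ b = j then x else 0

omit [Fintype ι] in
theorem oneM_apply (i j : ι) (x : K) (a b : ι) :
    oneM i j x a b = if a = i ∧ b = j then x else 0 := rfl

/-- the matrix with one entry -/
def inS (i j : ι) : d.S i j →ₗ[k] (matZ d).V where
  toFun x := mk d (oneM i j (x : K)) (fun a b => by
    rw [oneM_apply]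
    by_cases h : a = i ∧ b = j
    · rw [if_pos h, h.1, h.2]
      exact x.2
    · rw [if_neg h]
      exact Submodule.zero_mem _)
  map_add' x y := m_ext d (by
    rw [map_add]
    ext a b
    rw [Matrix.add_apply, mv_mk, mv_mk, mv_mk, oneM_apply, oneM_apply, oneM_apply]
    split_ifs
    · rfl
    · rw [add_zero])
  map_smul' c x := m_ext d (by
    rw [map_smul]
    ext a b
    rw [RingHom.id_apply, Matrix.smul_apply, mv_mk, mv_mk, oneM_apply, oneM_apply]
    split_ifs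
    · rfl
    · rw [smul_zero])

theorem mv_inS (i j : ι) (x : d.S i j) (a b : ι) :
    mv d (inS d i j x) a b = if a = i ∧ b = j then (x : K) else 0 := rfl

theorem sum_inS (x : (matZ d).V) : ∑ i, ∑ j, inS d i j (evS d i j x) = x := by
  refine m_ext d ?_
  rw [map_sum]
  ext a b
  rw [Matrix.sum_apply, Finset.sum_eq_single a]
  · rw [map_sum, Matrix.sum_apply, Finset.sum_eq_single b]
    · rw [mv_inS, if_pos ⟨rfl, rfl⟩]
      rfl
    · intro j _ hj
      rw [mv_inS, if_neg (fun h => hj h.2.symm)]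
    · intro h
      exact absurd (Finset.mem_univ b) h
  · intro i _ hi
    rw [map_sum, Matrix.sum_apply]
    refine Finset.sum_eq_zero fun j _ => ?_
    rw [mv_inS, if_neg (fun h => hi h.1.symm)]
  · intro h
    exact absurd (Finset.mem_univ a) h

end

section

variable {k : Type} [Field k] {R : Type} [CommRing R] [Algebra k R]
  {ι : Type} [Fintype ι] [DecidableEq ι] (d : MatDat k R ι)

/-- the entry `(i, j) ⊗ (i', j')` -/
def kap (i j i' j' : ι) : (matZ d).V ⊗[k] (matZ d).V →ₗ[k] R ⊗[k] R :=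
  TensorProduct.map (ent d i j) (ent d i' j')

theorem kap_tmul (i j i' j' : ι) (x y : (matZ d).V) :
    kap d i j i' j' (x ⊗ₜ y) = mv d x i j ⊗ₜ mv d y i' j' := rfl

theorem kap_mem (i j i' j' : ι) (z : (matZ d).V ⊗[k] (matZ d).V) :
    kap d i j i' j' z ∈ T2 (d.S i j) (d.S i' j') := by
  induction z using TensorProduct.induction_on with
  | zero => rw [map_zero]; exact Submodule.zero_mem _
  | tmul x y => exact T2_tmul (mv_mem d x i j) (mv_mem d y i' j')
  | add x y hx hy => rw [map_add]; exact Submodule.add_mem _ hx hy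

theorem kap_inj (z : (matZ d).V ⊗[k] (matZ d).V) (h : ∀ i j i' j', kap d i j i' j' z = 0) :
    z = 0 := by
  have h1 : ∀ i j i' j', TensorProduct.map (evS d i j) (evS d i' j') z = 0 := by
    intro i j i' j'
    have hinj : Function.Injective (TensorProduct.map (d.S i j).subtype (d.S i' j').subtype) :=
      TensorProduct.map_injective_of_flat_flat _ _ Subtype.val_injective Subtype.val_injective
    refine hinj ?_
    rw [map_zero, ← h i j i' j', ← LinearMap.comp_apply, ← TensorProduct.map_comp]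
    rfl
  have h2 : (LinearMap.id : (matZ d).V ⊗[k] (matZ d).V →ₗ[k] (matZ d).V ⊗[k] (matZ d).V) =
      ∑ i, ∑ j, ∑ i', ∑ j', TensorProduct.map (inS d i j) (inS d i' j') ∘ₗ
        TensorProduct.map (evS d i j) (evS d i' j') := by
    refine TensorProduct.ext' fun x y => ?_
    simp only [LinearMap.sum_apply, LinearMap.comp_apply, TensorProduct.map_tmul,
      LinearMap.id_apply]
    have e : ∀ i j, ∑ i', ∑ j', inS d i j (evS d i j x) ⊗ₜ[k] inS d i' j' (evS d i' j' y) =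
        inS d i j (evS d i j x) ⊗ₜ[k] y := by
      intro i j
      simp only [← TensorProduct.tmul_sum]
      rw [sum_inS]
    simp only [e, ← TensorProduct.sum_tmul]
    rw [sum_inS]
  have h3 := LinearMap.congr_fun h2 z
  rw [LinearMap.id_apply] at h3
  rw [h3]
  simp only [LinearMap.sum_apply, LinearMap.comp_apply, h1, map_zero, Finset.sum_const_zero]

theorem kap_surj (Z : ι → ι → ι → ι → R ⊗[k] R)
    (hZ : ∀ i j i' j', Z i j i' j' ∈ T2 (d.S i j) (d.S i' j')) :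
    ∃ z : (matZ d).V ⊗[k] (matZ d).V, ∀ i j i' j', kap d i j i' j' z = Z i j i' j' := by
  choose Y hY using hZ
  refine ⟨∑ i, ∑ j, ∑ i', ∑ j', TensorProduct.map (inS d i j) (inS d i' j') (Y i j i' j'), ?_⟩
  intro a b a' b'
  have key : ∀ i j i' j', kap d a b a' b' (TensorProduct.map (inS d i j) (inS d i' j') (Y i j i' j')) =
      if (i = a ∧ j = b) ∧ (i' = a' ∧ j' = b') then Z a b a' b' else 0 := by
    intro i j i' j'
    have e : kap d a b a' b' ∘ₗ TensorProduct.map (inS d i j) (inS d i' j') =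
        if (i = a ∧ j = b) ∧ (i' = a' ∧ j' = b') then
          TensorProduct.map (d.S i j).subtype (d.S i' j').subtype else 0 := by
      refine TensorProduct.ext' fun x y => ?_
      rw [LinearMap.comp_apply, TensorProduct.map_tmul, kap_tmul, mv_inS, mv_inS]
      by_cases h1 : i = a ∧ j = b
      · by_cases h2 : i' = a' ∧ j' = b'
        · rw [if_pos ⟨h1.1.symm, h1.2.symm⟩, if_pos ⟨h2.1.symm, h2.2.symm⟩, if_pos ⟨h1, h2⟩]
          rfl
        · rw [if_neg (fun h : a' = i' ∧ b' = j' => h2 ⟨h.1.symm, h.2.symm⟩),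
            if_neg (fun h : (i = a ∧ j = b) ∧ (i' = a' ∧ j' = b') => h2 h.2),
            TensorProduct.tmul_zero]
          rfl
      · rw [if_neg (fun h : a = i ∧ b = j => h1 ⟨h.1.symm, h.2.symm⟩),
          if_neg (fun h : (i = a ∧ j = b) ∧ (i' = a' ∧ j' = b') => h1 h.1),
          TensorProduct.zero_tmul]
        rfl
    rw [← LinearMap.comp_apply, e]
    by_cases h : (i = a ∧ j = b) ∧ (i' = a' ∧ j' = b')
    · rw [if_pos h, if_pos h]
      obtain ⟨⟨rfl, rfl⟩, rfl, rfl⟩ := h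
      exact hY i j i' j'
    · rw [if_neg h, if_neg h, LinearMap.zero_apply]
  simp only [map_sum, key]
  rw [Finset.sum_eq_single a, Finset.sum_eq_single b, Finset.sum_eq_single a',
    Finset.sum_eq_single b']
  · rw [if_pos ⟨⟨rfl, rfl⟩, rfl, rfl⟩]
  · intro j _ hj
    rw [if_neg (fun h => hj h.2.2)]
  · intro h
    exact absurd (Finset.mem_univ _) h
  · intro j _ hj
    exact Finset.sum_eq_zero fun _ _ => if_neg (fun h => hj h.2.1)
  · intro h
    exact absurd (Finset.mem_univ _) h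
  · intro j _ hj
    exact Finset.sum_eq_zero fun _ _ => Finset.sum_eq_zero fun _ _ => if_neg (fun h => hj h.1.2)
  · intro h
    exact absurd (Finset.mem_univ _) h
  · intro j _ hj
    exact Finset.sum_eq_zero fun _ _ => Finset.sum_eq_zero fun _ _ =>
      Finset.sum_eq_zero fun _ _ => if_neg (fun h => hj h.1.1)
  · intro h
    exact absurd (Finset.mem_univ _) h

end

namespace SurR

variable {q : ℕ} {k : Type} [Field k] {R : Type} [CommRing R] [Algebra k R]
  {K : Type} [CommRing K] [Algebra k K] {C : CurR q k R} (W : SurR C K) {p : ℕ} (hQ : QP p q k)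

/-- the chart with the number `c` -/
def pcd (c : Fin 2) : Pc := if c = 0 then Pc.X else Pc.Y

theorem pcd_Le {c d : Fin 2} {s : Pc} (h : pcc c d = some s) : Le (pcd d) s := by
  fin_cases c <;> fin_cases d <;> simp [pcc, pcd, Le] at h ⊢ <;> subst h <;> simp

/-- the diagonal matrix of the powers of `t` -/
def tM (e : ℕ) : Matrix IX IX K := Matrix.diagonal fun a => W.tt (pcd a.1.1) (pcd a.1.2) ^ e

include hQ in
theorem tM_mem (e : ℕ) (a b : IX) : W.tM e a b ∈ W.SX a b := by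
  by_cases h : a = b
  · subst h
    rw [tM, Matrix.diagonal_apply_eq]
    have h1 : ∀ c : Fin 2, pcc c c = some (pcd c) := by decide
    rw [W.SX_some (h1 _) (h1 _), sub_self, sub_self]
    exact W.pc_pow_mem hQ _ _ (W.tt_mem hQ _ _) e
  · rw [tM, Matrix.diagonal_apply_ne _ h]
    exact Submodule.zero_mem _

/-- `t^e` -/
def tE (e : ℕ) : (W.AX hQ).V := EK.mk (W.datX hQ) (W.tM e) (W.tM_mem hQ e)

theorem mv_tE (e : ℕ) : mv (W.datX hQ) (W.tE hQ e) = W.tM e := rfl

theorem tE_zero : W.tE hQ 0 = (W.AX hQ).one := m_ext _ (by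
  rw [mv_tE, mv_one, tM]
  simp only [pow_zero]
  exact Matrix.diagonal_one)

theorem tE_add (e f : ℕ) : W.tE hQ (e + f) = (W.AX hQ).mul (W.tE hQ e) (W.tE hQ f) :=
  m_ext _ (by
    rw [mv_mul, mv_tE, mv_tE, mv_tE, tM, tM, tM, Matrix.diagonal_mul_diagonal]
    simp only [pow_add])

/-- the entry formula -/
def IsLnk (i : C.AE.V ⊗[k] C.AE.V →ₗ[k] (W.AX hQ).V) (σ : IX → IX → k) : Prop :=
  ∀ x y a b, mv (W.datX hQ) (i (x ⊗ₜ y)) a b = algebraMap k K (σ a b) *
    (W.l (mv C.datE x (a.1.1, a.2.1) (b.1.1, b.2.1)) *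
      W.r (mv C.datE y (a.1.2, a.2.2) (b.1.2, b.2.2)))

variable {i : C.AE.V ⊗[k] C.AE.V →ₗ[k] (W.AX hQ).V} {σ : IX → IX → k}

theorem lnk_apply (hi : W.IsLnk hQ i σ) (z : C.AE.V ⊗[k] C.AE.V) (a b : IX) :
    mv (W.datX hQ) (i z) a b = algebraMap k K (σ a b) *
      W.mu (kap C.datE (a.1.1, a.2.1) (b.1.1, b.2.1) (a.1.2, a.2.2) (b.1.2, b.2.2) z) := by
  induction z using TensorProduct.induction_on with
  | zero => rw [map_zero, map_zero, map_zero, map_zero, mul_zero]; rfl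
  | tmul x y => rw [kap_tmul, mu_tmul, hi]
  | add x y hx hy =>
    rw [map_add, map_add, Matrix.add_apply, hx, hy, map_add, map_add, mul_add]

theorem lnk_sum (hi : W.IsLnk hQ i σ) (z : Fin q → C.AE.V ⊗[k] C.AE.V) (a b : IX) :
    mv (W.datX hQ) (∑ e : Fin q, (W.AX hQ).mul (i (z e)) (W.tE hQ e)) a b =
      algebraMap k K (σ a b) * W.Phi (W.tt (pcd b.1.1) (pcd b.1.2))
        (fun e => kap C.datE (a.1.1, a.2.1) (b.1.1, b.2.1) (a.1.2, a.2.2) (b.1.2, b.2.2) (z e)) := by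
  rw [map_sum, Matrix.sum_apply, Phi_apply, Finset.mul_sum]
  refine Finset.sum_congr rfl fun e _ => ?_
  rw [mv_mul, mv_tE, tM, Matrix.mul_diagonal, W.lnk_apply hQ hi, mul_assoc]

theorem lnk_inj (hi : W.IsLnk hQ i σ) (hσ : ∀ a b, σ a b ≠ 0)
    (z : Fin q → C.AE.V ⊗[k] C.AE.V)
    (h : ∑ e : Fin q, (W.AX hQ).mul (i (z e)) (W.tE hQ e) = 0) : z = 0 := by
  funext e
  refine kap_inj C.datE (z e) (fun i1 j1 i2 j2 => ?_)
  have h1 := W.lnk_sum hQ hi z ((i1.1, i2.1), (i1.2, i2.2)) ((j1.1, j2.1), (j1.2, j2.2))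
  rw [h, map_zero] at h1
  have h2 : W.Phi (W.tt (pcd j1.1) (pcd j2.1)) (fun e => kap C.datE i1 j1 i2 j2 (z e)) = 0 := by
    have h3 := h1.symm
    change algebraMap k K _ * W.Phi (W.tt (pcd j1.1) (pcd j2.1))
      (fun e => kap C.datE i1 j1 i2 j2 (z e)) = 0 at h3
    rw [← Algebra.smul_def] at h3
    exact (smul_eq_zero_iff_right (hσ _ _)).1 h3
  have h3 : (fun e => kap C.datE i1 j1 i2 j2 (z e)) = 0 :=
    (W.Phi_tt_bij _ _).1 (by rw [h2, map_zero])
  exact congrFun h3 e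

theorem lnk_ent (hσ : ∀ a b, σ a b ≠ 0) (x : (W.AX hQ).V) (a b : IX) : ∃ Z : Fin q → R ⊗[k] R,
    (∀ e, Z e ∈ T2 (C.SE (a.1.1, a.2.1) (b.1.1, b.2.1)) (C.SE (a.1.2, a.2.2) (b.1.2, b.2.2))) ∧
      mv (W.datX hQ) x a b = algebraMap k K (σ a b) *
        W.Phi (W.tt (pcd b.1.1) (pcd b.1.2)) Z := by
  have hx : mv (W.datX hQ) x a b ∈ W.SX a b := mv_mem (W.datX hQ) x a b
  rcases W.SX_cases hx with h0 | ⟨s, s', h, h', hx'⟩
  · exact ⟨0, fun _ => Submodule.zero_mem _, by rw [h0, map_zero, mul_zero]⟩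
  · have hx2 := Submodule.smul_mem _ (σ a b)⁻¹ hx'
    obtain ⟨Z, hZ, e⟩ := (W.mem_pc_iff_Le (pcd_Le h) (pcd_Le h') _ _ _).1 hx2
    refine ⟨Z, fun e => ?_, ?_⟩
    · have e1 := C.SE_some (i := (a.1.1, a.2.1)) (j := (b.1.1, b.2.1)) h
      have e2 := C.SE_some (i := (a.1.2, a.2.2)) (j := (b.1.2, b.2.2)) h'
      rw [e1, e2]
      exact hZ e
    · rw [← e, ← Algebra.smul_def, smul_smul, mul_inv_cancel₀ (hσ a b), one_smul]

theorem lnk_surj (hi : W.IsLnk hQ i σ) (hσ : ∀ a b, σ a b ≠ 0) (x : (W.AX hQ).V) :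
    ∃ z : Fin q → C.AE.V ⊗[k] C.AE.V,
      x = ∑ e : Fin q, (W.AX hQ).mul (i (z e)) (W.tE hQ e) := by
  have h1 : ∃ Z : IX → IX → Fin q → R ⊗[k] R, ∀ a b : IX,
    (∀ e, Z a b e ∈ T2 (C.SE (a.1.1, a.2.1) (b.1.1, b.2.1)) (C.SE (a.1.2, a.2.2) (b.1.2, b.2.2))) ∧
      mv (W.datX hQ) x a b = algebraMap k K (σ a b) *
        W.Phi (W.tt (pcd b.1.1) (pcd b.1.2)) (Z a b) := by
    refine ⟨fun a b => (W.lnk_ent hQ hσ x a b).choose, fun a b => (W.lnk_ent hQ hσ x a b).choose_spec⟩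
  obtain ⟨Z, hZ⟩ := h1
  have h2 : ∃ z : Fin q → C.AE.V ⊗[k] C.AE.V, ∀ e i1 j1 i2 j2, kap C.datE i1 j1 i2 j2 (z e) =
      Z ((i1.1, i2.1), (i1.2, i2.2)) ((j1.1, j2.1), (j1.2, j2.2)) e := by
    have h3 : ∀ e : Fin q, ∃ z : C.AE.V ⊗[k] C.AE.V, ∀ i1 j1 i2 j2, kap C.datE i1 j1 i2 j2 z =
        Z ((i1.1, i2.1), (i1.2, i2.2)) ((j1.1, j2.1), (j1.2, j2.2)) e := fun e =>
      kap_surj C.datE
        (fun i1 j1 i2 j2 => Z ((i1.1, i2.1), (i1.2, i2.2)) ((j1.1, j2.1), (j1.2, j2.2)) e)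
        (fun i1 j1 i2 j2 => (hZ ((i1.1, i2.1), (i1.2, i2.2)) ((j1.1, j2.1), (j1.2, j2.2))).1 e)
    exact ⟨fun e => (h3 e).choose, fun e => (h3 e).choose_spec⟩
  obtain ⟨z, hz⟩ := h2
  refine ⟨z, m_ext (W.datX hQ) ?_⟩
  refine Matrix.ext fun a b => ?_
  rw [W.lnk_sum hQ hi, (hZ a b).2]
  have h4 : (fun e => kap C.datE (a.1.1, a.2.1) (b.1.1, b.2.1) (a.1.2, a.2.2) (b.1.2, b.2.2) (z e)) =
      Z a b := funext fun e => hz e (a.1.1, a.2.1) (b.1.1, b.2.1) (a.1.2, a.2.2) (b.1.2, b.2.2)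
  rw [h4]

/-- **left basis**: every element of `AX` is uniquely `∑ i(z_e) t^e`, `e < q` -/
theorem left_basis (hi : W.IsLnk hQ i σ) (hσ : ∀ a b, σ a b ≠ 0) (x : (W.AX hQ).V) :
    ∃! z : Fin q → C.AE.V ⊗[k] C.AE.V,
      x = ∑ e : Fin q, (W.AX hQ).mul (i (z e)) (W.tE hQ e) := by
  obtain ⟨z, hz⟩ := W.lnk_surj hQ hi hσ x
  refine ⟨z, hz, fun w hw => ?_⟩
  have h : ∑ e : Fin q, (W.AX hQ).mul (i ((w - z) e)) (W.tE hQ e) = 0 := by
    have e1 : ∀ e : Fin q, (W.AX hQ).mul (i ((w - z) e)) (W.tE hQ e) =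
        (W.AX hQ).mul (i (w e)) (W.tE hQ e) - (W.AX hQ).mul (i (z e)) (W.tE hQ e) := by
      intro e
      rw [Pi.sub_apply, map_sub, map_sub, LinearMap.sub_apply]
    rw [Finset.sum_congr rfl fun e _ => e1 e, Finset.sum_sub_distrib, ← hw, ← hz, sub_self]
  exact sub_eq_zero.1 (W.lnk_inj hQ hi hσ _ h)

end SurR

end EK
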