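import Mathlib
import Pool.Agent.H36.EK.Defs

/-!
# CurEx : the ring of the overlap of the two charts of the curve exists

`AdjoinRoot` of the monic polynomial `X^2 - (T^q - T) X - 1` over the Laurent polynomials, for every field `k` and
every `q ≥ 2`.
-/

set_option autoImplicit false

namespace EK

open Polynomial LaurentPolynomial

/-- the equation of the curve over the Laurent polynomials -/
private noncomputable def exC (q : ℕ) (k : Type) [Field k] : (LaurentPolynomial k)[X] :=
  X ^ 2 + (Polynomial.C (-((T (q : ℤ) : LaurentPolynomial k) - T 1)) * X + Polynomial.C (-1))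

private theorem exC_deg (q : ℕ) (k : Type) [Field k] :
    (Polynomial.C (-((T (q : ℤ) : LaurentPolynomial k) - T 1)) * X +
      Polynomial.C (-1) : (LaurentPolynomial k)[X]).degree < ((2 : ℕ) : WithBot ℕ) := by
  refine lt_of_le_of_lt (Polynomial.degree_linear_le) ?_
  norm_num

private theorem exC_monic (q : ℕ) (k : Type) [Field k] : (exC q k).Monic := by
  unfold exC
  exact Polynomial.monic_X_pow_add (exC_deg q k)

private theorem exC_natDegree (q : ℕ) (k : Type) [Field k] : (exC q k).natDegree = 2 := by
  unfold exC
  exact Polynomial.natDegree_eq_of_degree_eq_some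
    (by rw [Polynomial.degree_add_eq_left_of_degree_lt (by
          rw [Polynomial.degree_X_pow]; exact exC_deg q k), Polynomial.degree_X_pow])

private theorem exC_aeval (q : ℕ) (k : Type) [Field k] {S : Type} [CommRing S]
    [Algebra (LaurentPolynomial k) S] (r : S) :
    Polynomial.aeval r (exC q k) = r ^ 2 -
      ((algebraMap (LaurentPolynomial k) S (T (q : ℤ)) - algebraMap (LaurentPolynomial k) S (T 1)) * r
        + 1) := by
  unfold exC
  simp only [map_add, map_neg, map_mul, map_sub, Polynomial.aeval_C, Polynomial.aeval_X, map_pow,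
    map_one]
  ring

theorem exists_curR (q : ℕ) (hq : 2 ≤ q) (k : Type) [Field k] :
    ∃ (R : Type) (_ : CommRing R) (_ : Algebra k R), Nonempty (CurR q k R) := by
  classical
  have hF := exC_monic q k
  let A := LaurentPolynomial k
  let R := AdjoinRoot (exC q k)
  let pb := AdjoinRoot.powerBasis' hF
  have hdim : pb.dim = 2 := by
    show (exC q k).natDegree = 2
    exact exC_natDegree q k
  let bA : Module.Basis ℤ k A := AddMonoidAlgebra.basis ℤ k
  let bR : Module.Basis (Fin 2) A R := pb.basis.reindex (finCongr hdim)
  let uA : Aˣ := ⟨T 1, T (-1), by rw [← T_add]; simp, by rw [← T_add]; simp⟩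
  have huA : ∀ m : ℤ, ((uA ^ m : Aˣ) : A) = T m := by
    intro m
    induction m using Int.induction_on with
    | zero => simp
    | succ n ih => rw [zpow_add_one, Units.val_mul, ih, T_add]
    | pred n ih =>
      rw [zpow_sub_one, Units.val_mul, ih, show (-(n : ℤ) - 1) = -(n : ℤ) + (-1) by ring, T_add]
      rfl
  have hbA : ∀ m : ℤ, bA m = T m := by
    intro m
    show AddMonoidAlgebra.basis ℤ k m = T m
    rw [AddMonoidAlgebra.basis_apply]
    rfl
  refine ⟨R, inferInstance, inferInstance, ⟨{
    hq := hq
    u := Units.map (algebraMap A R : A →* R) uA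
    a := AdjoinRoot.root (exC q k)
    bas := bA.smulTower bR
    bas_eq := ?_
    rel := ?_ }⟩⟩
  · intro m a
    rw [Module.Basis.smulTower_apply, hbA, Algebra.smul_def, ← huA m, ← map_zpow, Units.coe_map]
    congr 1
    simp [bR, pb]
  · have h2 : Polynomial.aeval (AdjoinRoot.root (exC q k)) (exC q k) = 0 := by
      rw [AdjoinRoot.aeval_eq, AdjoinRoot.mk_self]
    have hT : ∀ n : ℕ, algebraMap A R (T (n : ℤ)) = (algebraMap A R (T 1)) ^ n := by
      intro n
      rw [← map_pow, T_pow, mul_one]
    have hu : ((Units.map (algebraMap A R : A →* R) uA : Rˣ) : R) = algebraMap A R (T 1) := rfl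
    rw [hu, ← hT q]
    rw [exC_aeval] at h2
    exact sub_eq_zero.mp h2

end EK
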