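import Mathlib
import Pool.Agent.H55.ED.CurEx

/-!
# SurEx : the ring of the intersection of the four charts of the surface exists

`AdjoinRoot` of the monic polynomial `X^q - X - (a ⊗ 1 - 1 ⊗ a)` over `R ⊗ R`.
-/

set_option autoImplicit false

namespace EK

open Polynomial
open scoped TensorProduct

variable {q : ℕ} {k : Type} [Field k] {R : Type} [CommRing R] [Algebra k R]

/-- `a ⊗ 1 - 1 ⊗ a` -/
private noncomputable def daT (C : CurR q k R) : R ⊗[k] R :=
  Algebra.TensorProduct.includeLeft (R := k) (S := k) (A := R) (B := R) C.a -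
    Algebra.TensorProduct.includeRight (R := k) (A := R) (B := R) C.a

/-- the equation of the surface over `R ⊗ R` -/
private noncomputable def exS (C : CurR q k R) : (R ⊗[k] R)[X] :=
  X ^ q + (Polynomial.C (-1) * X + Polynomial.C (-(daT C)))

private theorem exS_deg (C : CurR q k R) :
    (Polynomial.C (-1) * X + Polynomial.C (-(daT C)) : (R ⊗[k] R)[X]).degree
      < ((q : ℕ) : WithBot ℕ) := by
  refine lt_of_le_of_lt (Polynomial.degree_linear_le) ?_
  have h := C.hq
  exact_mod_cast (by omega : 1 < q)

private theorem exS_monic (C : CurR q k R) : (exS C).Monic := by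
  unfold exS
  exact Polynomial.monic_X_pow_add (exS_deg C)

private theorem exS_natDegree [Nontrivial (R ⊗[k] R)] (C : CurR q k R) :
    (exS C).natDegree = q := by
  unfold exS
  exact Polynomial.natDegree_eq_of_degree_eq_some
    (by rw [Polynomial.degree_add_eq_left_of_degree_lt (by
          rw [Polynomial.degree_X_pow]; exact exS_deg C), Polynomial.degree_X_pow])

private theorem exS_aeval (C : CurR q k R) {S : Type} [CommRing S] [Algebra (R ⊗[k] R) S] (r : S) :
    Polynomial.aeval r (exS C) = r ^ q - (r + algebraMap (R ⊗[k] R) S (daT C)) := by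
  unfold exS
  simp only [map_add, map_neg, map_mul, Polynomial.aeval_C, Polynomial.aeval_X, map_pow,
    map_one]
  ring

theorem exists_surR (C : CurR q k R) :
    ∃ (K : Type) (_ : CommRing K) (_ : Algebra k K), Nonempty (SurR C K) := by
  classical
  have hF := exS_monic C
  let A := R ⊗[k] R
  let bA : Module.Basis ((ℤ × Fin 2) × (ℤ × Fin 2)) k A := C.bas.tensorProduct C.bas
  have hne : Nontrivial A := ⟨bA ((0, 0), (0, 0)), 0, bA.ne_zero _⟩
  let K := AdjoinRoot (exS C)
  let pb := AdjoinRoot.powerBasis' hF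
  have hdim : pb.dim = q := by
    show (exS C).natDegree = q
    exact exS_natDegree C
  let bK : Module.Basis (Fin q) A K := pb.basis.reindex (finCongr hdim)
  let iK : A →ₐ[k] K := IsScalarTower.toAlgHom k A K
  refine ⟨K, inferInstance, inferInstance, ⟨{
    l := iK.comp (Algebra.TensorProduct.includeLeft (R := k) (S := k) (A := R) (B := R))
    r := iK.comp (Algebra.TensorProduct.includeRight (R := k) (A := R) (B := R))
    t := AdjoinRoot.root (exS C)
    bas := (bA.smulTower bK).reindex (Equiv.prodAssoc _ _ _)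
    bas_eq := ?_
    rel := ?_ }⟩⟩
  · intro i j s
    rw [Module.Basis.reindex_apply, Equiv.prodAssoc_symm_apply, Module.Basis.smulTower_apply,
      Algebra.smul_def]
    have h1 : bA (i, j) = C.bas i ⊗ₜ[k] C.bas j := Module.Basis.tensorProduct_apply _ _ _ _
    have h2 : bK s = AdjoinRoot.root (exS C) ^ (s : ℕ) := by simp [bK, pb]
    have h3 : (C.bas i ⊗ₜ[k] C.bas j : A) =
        Algebra.TensorProduct.includeLeft (R := k) (S := k) (A := R) (B := R) (C.bas i) *
          Algebra.TensorProduct.includeRight (R := k) (A := R) (B := R) (C.bas j) := by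
      simp
    show algebraMap A K (bA (i, j)) * bK s = _
    rw [h1, h2, h3, map_mul]
    rfl
  · have h2 : Polynomial.aeval (AdjoinRoot.root (exS C)) (exS C) = 0 := by
      rw [AdjoinRoot.aeval_eq, AdjoinRoot.mk_self]
    rw [exS_aeval] at h2
    have h3 := sub_eq_zero.mp h2
    rw [h3, daT, map_sub]
    exact (add_sub_assoc _ _ _).symm

/-- both rings exist -/
theorem exists_curR_surR (q : ℕ) (hq : 2 ≤ q) (k : Type) [Field k] :
    ∃ (R : Type) (_ : CommRing R) (_ : Algebra k R) (C : CurR q k R)
      (K : Type) (_ : CommRing K) (_ : Algebra k K), Nonempty (SurR C K) := by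
  obtain ⟨R, i1, i2, ⟨C⟩⟩ := exists_curR q hq k
  obtain ⟨K, j1, j2, ⟨W⟩⟩ := exists_surR C
  exact ⟨R, i1, i2, C, K, j1, j2, ⟨W⟩⟩

end EK
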